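import Pool.Agent.helper94.FJ.SpecP

/-! # Row PTI of project fj (MP_ad8ced_nt): Fourier inversion for the tent -/

set_option autoImplicit false

namespace Pool.Agent.FJ

open Finset ArithmeticFunction MeasureTheory
open Pool.Agent.CH (nit DPb)
open Pool.Agent.SK (tr0 Th muz sml bgf zN uu)
open Pool.Agent.helper85.BVP (tau)

private theorem PTI_prim (α β w : ℂ) (hw : w ≠ 0) (x : ℝ) :
    HasDerivAt (fun y : ℝ => (α + β * (y : ℂ)) * Complex.exp (w * y) / w - β * Complex.exp (w * y) / w ^ 2)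
      ((α + β * (x : ℂ)) * Complex.exp (w * x)) x := by
  have h0 : HasDerivAt (fun y : ℝ => (y : ℂ)) 1 x := Complex.ofRealCLM.hasDerivAt
  have h1 : HasDerivAt (fun y : ℝ => Complex.exp (w * (y : ℂ))) (Complex.exp (w * (x : ℂ)) * (w * 1)) x :=
    (h0.const_mul w).cexp
  have h2 : HasDerivAt (fun y : ℝ => α + β * (y : ℂ)) (β * 1) x := (h0.const_mul β).const_add α
  have h3 := ((h2.mul h1).div_const w).sub ((h1.const_mul β).div_const (w ^ 2))
  refine h3.congr_deriv ?_
  field_simp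
  ring

private theorem PTI_int (α β w : ℂ) (hw : w ≠ 0) (a b : ℝ) :
    ∫ x in a..b, (α + β * (x : ℂ)) * Complex.exp (w * x) =
      ((α + β * (b : ℂ)) * Complex.exp (w * b) / w - β * Complex.exp (w * b) / w ^ 2) -
      ((α + β * (a : ℂ)) * Complex.exp (w * a) / w - β * Complex.exp (w * a) / w ^ 2) := by
  apply intervalIntegral.integral_eq_sub_of_hasDerivAt
    (f := fun y : ℝ => (α + β * (y : ℂ)) * Complex.exp (w * y) / w - β * Complex.exp (w * y) / w ^ 2)
  · intro x _
    exact PTI_prim α β w hw x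
  · apply Continuous.intervalIntegrable
    fun_prop

private theorem PTI_val (δ t : ℝ) (hδ : 0 < δ) (ht : t ≠ 0) (h0 : ∀ x, δ ≤ |x - 0| → tr0 0 δ x = 0)
    (hL : Continuous (tr0 0 δ)) :
    Th δ t = (Complex.exp (-(t : ℂ) * Complex.I * δ) + Complex.exp (-(-(t : ℂ) * Complex.I * δ)) - 2) /
      (δ * (-(t : ℂ) * Complex.I) ^ 2) := by
  obtain ⟨w, hw⟩ : ∃ w : ℂ, w = -(t : ℂ) * Complex.I := ⟨_, rfl⟩
  have hw0 : w ≠ 0 := by
    rw [hw]
    exact mul_ne_zero (neg_ne_zero.2 (Complex.ofReal_ne_zero.2 ht)) Complex.I_ne_zero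
  have hδc : (δ : ℂ) ≠ 0 := Complex.ofReal_ne_zero.2 hδ.ne'
  rw [← hw]
  have he : ∀ x : ℝ, ((tr0 0 δ x : ℝ) : ℂ) * Complex.exp (((-(t * x) : ℝ) : ℂ) * Complex.I) =
      ((tr0 0 δ x : ℝ) : ℂ) * Complex.exp (w * x) := by
    intro x
    rw [hw]
    congr 2
    push_cast
    ring
  unfold Th
  simp_rw [he]
  have hsup : Function.support (fun x : ℝ => ((tr0 0 δ x : ℝ) : ℂ) * Complex.exp (w * x)) ⊆
      Set.Ioc (-δ) δ := by
    intro x hx
    rw [Function.mem_support] at hx
    by_contra hc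
    apply hx
    have : tr0 0 δ x = 0 := by
      apply h0
      rw [sub_zero, le_abs]
      rw [Set.mem_Ioc, not_and_or, not_lt, not_le] at hc
      rcases hc with hc | hc
      · right; linarith
      · left; linarith
    rw [this]
    simp
  rw [← intervalIntegral.integral_eq_integral_of_support_subset hsup]
  have hcont : Continuous (fun x : ℝ => ((tr0 0 δ x : ℝ) : ℂ) * Complex.exp (w * x)) := by
    fun_prop
  rw [← intervalIntegral.integral_add_adjacent_intervals (b := 0) (hcont.intervalIntegrable _ _)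
    (hcont.intervalIntegrable _ _)]
  have i1 : ∫ x in (-δ)..0, ((tr0 0 δ x : ℝ) : ℂ) * Complex.exp (w * x) =
      ∫ x in (-δ)..0, ((1 : ℂ) + (1 / δ : ℂ) * (x : ℂ)) * Complex.exp (w * x) := by
    apply intervalIntegral.integral_congr
    intro x hx
    rw [Set.uIcc_of_le (by linarith)] at hx
    have h1 : tr0 0 δ x = 1 + 1 / δ * x := by
      unfold tr0
      rw [sub_zero, abs_of_nonpos hx.2, max_eq_right]
      · field_simp; ring
      · rw [sub_nonneg, div_le_one hδ]; linarith [hx.1]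
    beta_reduce
    rw [h1]
    push_cast
    ring
  have i2 : ∫ x in (0)..δ, ((tr0 0 δ x : ℝ) : ℂ) * Complex.exp (w * x) =
      ∫ x in (0)..δ, ((1 : ℂ) + (-(1 / δ) : ℂ) * (x : ℂ)) * Complex.exp (w * x) := by
    apply intervalIntegral.integral_congr
    intro x hx
    rw [Set.uIcc_of_le (by linarith)] at hx
    have h1 : tr0 0 δ x = 1 + -(1 / δ) * x := by
      unfold tr0
      rw [sub_zero, abs_of_nonneg hx.1, max_eq_right]
      · field_simp; ring
      · rw [sub_nonneg, div_le_one hδ]; linarith [hx.2]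
    beta_reduce
    rw [h1]
    push_cast
    ring
  rw [i1, i2, PTI_int _ _ w hw0, PTI_int _ _ w hw0]
  have e1 : w * ((-δ : ℝ) : ℂ) = -(w * δ) := by push_cast; ring
  rw [e1]
  simp only [Complex.ofReal_zero, mul_zero, Complex.exp_zero, Complex.ofReal_neg]
  field_simp
  ring

private theorem PTI_formula (c t : ℝ) (hc : 0 < c) (ht : t ≠ 0) :
    Th c t = ((2 * (1 - Real.cos (c * t)) / (c * t ^ 2) : ℝ) : ℂ) := by
  have h0 : ∀ x, c ≤ |x - 0| → tr0 0 c x = 0 := by
    intro x hx
    unfold tr0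
    apply max_eq_left
    rw [sub_nonpos, one_le_div hc]
    exact hx
  have hcont : Continuous (tr0 0 c) := by
    unfold tr0
    fun_prop
  rw [PTI_val c t hc ht h0 hcont]
  have hcc : (c : ℂ) ≠ 0 := Complex.ofReal_ne_zero.2 hc.ne'
  have htc : (t : ℂ) ≠ 0 := Complex.ofReal_ne_zero.2 ht
  have h1 : Complex.exp (-(t : ℂ) * Complex.I * c) + Complex.exp (-(-(t : ℂ) * Complex.I * c)) =
      2 * Complex.cos ((c : ℂ) * t) := by
    rw [Complex.two_cos]
    have e1 : -(t : ℂ) * Complex.I * c = -((c : ℂ) * t) * Complex.I := by ring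
    have e2 : -(-((c : ℂ) * t) * Complex.I) = (c : ℂ) * t * Complex.I := by ring
    rw [e1, e2]
    ring
  rw [h1]
  have h2 : (-(t : ℂ) * Complex.I) ^ 2 = -(t : ℂ) ^ 2 := by
    rw [mul_pow, Complex.I_sq]; ring
  rw [h2]
  push_cast
  field_simp
  ring

private theorem PTI_bound (hTHB : Pool.Agent.SK.THB_stmt) (c : ℝ) (hc : 0 < c) (t : ℝ) :
    ‖Th c t‖ ≤ (2 * c + 8 / c) * (1 + t ^ 2)⁻¹ := by
  obtain ⟨b1, b2, -, -⟩ := hTHB c hc
  have hp : 0 < 1 + t ^ 2 := by positivity
  rw [← div_eq_mul_inv, le_div_iff₀ hp]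
  rcases le_or_gt (t ^ 2) 1 with h | h
  · have h1 := b1 t
    have h2 : 0 ≤ 8 / c := by positivity
    nlinarith [norm_nonneg (Th c t)]
  · have ht : t ≠ 0 := by
      rintro rfl
      norm_num at h
    have h1 := b2 t ht
    have hct : 0 < c * t ^ 2 := by positivity
    have h3 : ‖Th c t‖ * (1 + t ^ 2) ≤ 4 / (c * t ^ 2) * (1 + t ^ 2) :=
      mul_le_mul_of_nonneg_right h1 hp.le
    have h4 : 4 / (c * t ^ 2) * (1 + t ^ 2) ≤ 8 / c := by
      rw [div_mul_eq_mul_div, div_le_div_iff₀ hct hc]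
      nlinarith
    linarith

theorem PTI (hTHB : Pool.Agent.SK.THB_stmt) (hTRC : Pool.Agent.SK.TRC_stmt) : PTI_stmt := by
  intro c hc
  have hcont : Continuous (Th c) := (hTHB c hc).2.2.2
  have hdom : Integrable (fun t : ℝ => (2 * c + 8 / c) * (1 + t ^ 2)⁻¹) :=
    integrable_inv_one_add_sq.const_mul _
  have hint : Integrable (Th c) :=
    hdom.mono' hcont.aestronglyMeasurable (Filter.Eventually.of_forall (PTI_bound hTHB c hc))
  refine ⟨fun t ht => PTI_formula c t hc ht, hint, ?_⟩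
  intro y
  -- the sequence of gaussians
  set s : ℕ → ℝ := fun n => 1 / ((n : ℝ) + 1) with hs
  have hs0 : ∀ n, 0 < s n := fun n => by rw [hs]; positivity
  have hlim : Filter.Tendsto s Filter.atTop (nhds 0) := tendsto_one_div_add_atTop_nhds_zero_nat
  have h1 : Filter.Tendsto (fun n => ((Pool.Agent.SK.trc 0 c (s n) y : ℝ) : ℂ)) Filter.atTop
      (nhds ((tr0 0 c y : ℝ) : ℂ)) := by
    have h2 : Filter.Tendsto (fun n => Pool.Agent.SK.trc 0 c (s n) y) Filter.atTop
        (nhds (tr0 0 c y)) := by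
      rw [tendsto_iff_dist_tendsto_zero]
      have h3 : Filter.Tendsto (fun n => s n / c) Filter.atTop (nhds 0) := by
        have := hlim.div_const c
        rwa [zero_div] at this
      refine squeeze_zero (fun n => dist_nonneg) (fun n => ?_) h3
      rw [Real.dist_eq, abs_sub_comm]
      exact (hTRC 0 c (s n) y hc (hs0 n)).1
    exact (Complex.continuous_ofReal.tendsto _).comp h2
  have h4 : Filter.Tendsto (fun n => ∫ t : ℝ, ((Real.exp (-((s n) ^ 2 * t ^ 2 / 2)) : ℝ) : ℂ) * Th c t *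
      Complex.exp (((t * (y - 0) : ℝ) : ℂ) * Complex.I)) Filter.atTop
      (nhds (∫ t : ℝ, Th c t * Complex.exp (((t * y : ℝ) : ℂ) * Complex.I))) := by
    apply tendsto_integral_of_dominated_convergence (fun t : ℝ => (2 * c + 8 / c) * (1 + t ^ 2)⁻¹)
    · intro n
      apply Continuous.aestronglyMeasurable
      fun_prop
    · exact hdom
    · intro n
      apply Filter.Eventually.of_forall
      intro t
      rw [norm_mul, norm_mul, Complex.norm_exp_ofReal_mul_I, mul_one, Complex.norm_real,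
        Real.norm_of_nonneg (Real.exp_pos _).le]
      have h5 : Real.exp (-((s n) ^ 2 * t ^ 2 / 2)) ≤ 1 := by
        rw [Real.exp_le_one_iff]
        have : 0 ≤ (s n) ^ 2 * t ^ 2 / 2 := by positivity
        linarith
      have h6 := PTI_bound hTHB c hc t
      nlinarith [norm_nonneg (Th c t), Real.exp_pos (-((s n) ^ 2 * t ^ 2 / 2))]
    · apply Filter.Eventually.of_forall
      intro t
      have h7 : Filter.Tendsto (fun n => -((s n) ^ 2 * t ^ 2 / 2)) Filter.atTop (nhds 0) := by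
        have := (((hlim.pow 2).mul_const (t ^ 2)).div_const 2).neg
        simpa using this
      have h8 : Filter.Tendsto (fun n => Real.exp (-((s n) ^ 2 * t ^ 2 / 2))) Filter.atTop (nhds 1) := by
        have := (Real.continuous_exp.tendsto 0).comp h7
        rwa [Real.exp_zero] at this
      have h9 : Filter.Tendsto (fun n => ((Real.exp (-((s n) ^ 2 * t ^ 2 / 2)) : ℝ) : ℂ)) Filter.atTop
          (nhds ((1 : ℝ) : ℂ)) := (Complex.continuous_ofReal.tendsto _).comp h8
      have h10 := (h9.mul_const (Th c t)).mul_const (Complex.exp (((t * (y - 0) : ℝ) : ℂ) * Complex.I))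
      rw [Complex.ofReal_one, one_mul] at h10
      have h11 : Th c t * Complex.exp (((t * y : ℝ) : ℂ) * Complex.I) =
          Th c t * Complex.exp (((t * (y - 0) : ℝ) : ℂ) * Complex.I) := by
        rw [sub_zero]
      rw [h11]
      exact h10
  have h12 : Filter.Tendsto (fun n => ((Pool.Agent.SK.trc 0 c (s n) y : ℝ) : ℂ)) Filter.atTop
      (nhds (1 / (2 * Real.pi) * ∫ t : ℝ, Th c t * Complex.exp (((t * y : ℝ) : ℂ) * Complex.I))) := by
    have h13 := h4.const_mul (1 / (2 * (Real.pi : ℂ)))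
    refine h13.congr (fun n => ?_)
    exact ((hTRC 0 c (s n) y hc (hs0 n)).2.2).symm
  exact tendsto_nhds_unique h1 h12

end Pool.Agent.FJ
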